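import Pool.Agent.TH292.SL.Main

/-!
# A primitive aperiodic substitution with a Lebesgue spectral component whose Perron–Frobenius
eigenvalue is `2 + √2`

The alphabet is `{X₁, X₂, Y₁, Y₂} × ℤ/8`, the substitution commutes with the translations of the
second coordinate and is given on the letters `(c, 0)` by

* `X₁ ↦ (Y₁,0)(X₁,0)(X₂,0)`
* `X₂ ↦ (X₁,0)(X₂,4)(Y₂,0)`
* `Y₁ ↦ (Y₁,0)(X₁,5)(X₂,3)(Y₂,2)`
* `Y₂ ↦ (Y₁,2)(X₁,5)(X₂,7)(Y₂,0)`

The spectral measure of `x ↦ exp(2πi g(x₀)/8)`, where `g` is the second coordinate, is Lebesgue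
measure.
-/

set_option autoImplicit false

open MeasureTheory SubstLeb

namespace Pool.Agent.Results.MP_db984e_an.LebesgueTwoPlusSqrtTwo

theorem result : ∃ (A : Type) (_ : Fintype A) (_ : DecidableEq A) (σ : Substitution A),
    σ.IsPrimitive ∧ σ.space.Infinite ∧
    (∃ θ : ℝ, IsPerronEigenvalue σ.matrix θ ∧ θ = 2 + √2 ∧ ∀ n : ℤ, θ ≠ n) ∧
    ∃ μ : Measure (BiSeq A), σ.IsInvariantMeasure μ ∧
      (∀ ν : Measure (BiSeq A), σ.IsInvariantMeasure ν → ν = μ) ∧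
      HasLebesgueComponent μ ∧
      ∃ f : BiSeq A → ℂ, MemLp f 2 μ ∧
        IsSpectralMeasure μ f (volume : Measure UnitAddCircle) :=
  ⟨Al, inferInstance, inferInstance, sub, main⟩

end Pool.Agent.Results.MP_db984e_an.LebesgueTwoPlusSqrtTwo
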